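import Pool.Agent.H96.STR.PSS

/-!
# STR, module SRZ: the polynomials with `a_1 = 0`
-/

set_option autoImplicit false

namespace Pool.STR

open Polynomial Matrix Pool.HYP Pool.TOW Pool.AVS IsDedekindDomain Pool.T1

section

variable {R : Type} [CommRing R] [IsDedekindDomain R] {K : Type} [Field K] [Algebra R K]
  [IsFractionRing R K] {O : ValuationSubring K} {π : K}

omit [IsFractionRing R K] in
/-- The inverse of a natural number which is a unit of `R` is in all valuation rings. -/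
theorem inv_nat' (hG : GR R O π) {N : ℕ} (hN : IsUnit ((N : ℕ) : R)) :
    ∃ u : R, (N : R) * u = 1 ∧ ∀ w : ValuationSubring K, algebraMap R K u ∈ w := by
  obtain ⟨p, hp, hcp⟩ := hG.char
  obtain ⟨u, hu⟩ := hN.exists_right_inv
  have hK : ((N : ℕ) : K) * algebraMap R K u = 1 := by
    have := congrArg (algebraMap R K) hu
    rwa [map_mul, map_natCast, map_one] at this
  have hN0 : ((N : ℕ) : K) ≠ 0 := left_ne_zero_of_mul_eq_one hK
  have hcop : N.Coprime p := by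
    rw [Nat.coprime_comm, hp.coprime_iff_not_dvd]
    intro hd
    exact hN0 ((CharP.cast_eq_zero_iff K p N).2 hd)
  obtain ⟨m, -, hm⟩ := Nat.exists_mul_mod_eq_one_of_coprime hcop hp.one_lt
  have h1 : ((N : ℕ) : K) * (m : K) = 1 := by
    rw [← Nat.cast_mul, CharP.cast_eq_mod K p, hm, Nat.cast_one]
  have h2 : algebraMap R K u = (m : K) := mul_left_cancel₀ hN0 (hK.trans h1.symm)
  refine ⟨u, hu, fun w => ?_⟩
  rw [h2]
  exact natCast_mem w m

omit [IsDedekindDomain R] [IsFractionRing R K] in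
/-- The size of a set stable under the normalizing translation. -/
theorem nor_le {S : Set R[X]} {g h : ℕ} {u : R} (hu : ((2 * g + 1 : ℕ) : R) * u = 1)
    (hSf : S.Finite) (hLf : (Lm R O π (h : ℤ)).Finite)
    (hS : ∀ f ∈ S, f.Monic ∧ f.natDegree = 2 * g + 1 ∧ f.coeff (2 * g) ∈ Lm R O π (h : ℤ))
    (hst : ∀ f ∈ S, taylor (-(u * f.coeff (2 * g))) f ∈ S) :
    S.ncard ≤ {f ∈ S | f.coeff (2 * g) = 0}.ncard * (Lm R O π (h : ℤ)).ncard := by
  rw [← Set.ncard_prod]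
  refine Set.ncard_le_ncard_of_injOn
    (fun f : R[X] => (taylor (-(u * f.coeff (2 * g))) f, f.coeff (2 * g))) ?_ ?_
    ((hSf.subset fun f hf => hf.1).prod hLf)
  · intro f hf
    obtain ⟨hm, hn, ha⟩ := hS f hf
    refine ⟨⟨hst f hf, ?_⟩, ha⟩
    show (taylor (-(u * f.coeff (2 * g))) f).coeff (2 * g) = 0
    rw [Pool.T1P.tay_top _ hm hn]
    linear_combination (-f.coeff (2 * g)) * hu
  · intro f _ f' _ he
    have h1 : taylor (-(u * f.coeff (2 * g))) f = taylor (-(u * f'.coeff (2 * g))) f' :=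
      congrArg Prod.fst he
    have h2 : f.coeff (2 * g) = f'.coeff (2 * g) := congrArg Prod.snd he
    rw [← h2] at h1
    exact taylor_injective _ h1

omit [IsDedekindDomain R] [IsFractionRing R K] in
theorem fk_nor (g : ℕ) (u : R) (f : R[X]) :
    fk K (taylor (-(u * f.coeff (2 * g))) f) = nor g (algebraMap R K u) (fk K f) := by
  rw [Pool.T1P.fk_tay, nor, map_neg, map_mul, coeff_map]

/-- **SRZ.** -/
theorem posSZ (H : GR R O π) {g : ℕ} {S T T' : Finset (HeightOneSpectrum R)} {Y : R[X] → Prop}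
    (hN : IsUnit ((2 * g + 1 : ℕ) : R)) (hLf : ∀ m : ℤ, (Lm R O π m).Finite)
    (hY : ∀ f : R[X], f.Monic → ∀ r : R, Y f → Y (taylor r f))
    (hpos : PosS O π g S T T' Y) :
    ∃ δ : ℝ, 0 < δ ∧ ∃ h0 : ℕ, ∀ h : ℕ, h0 ≤ h →
      0 < {f ∈ AllS R O π g h | f.coeff (2 * g) = 0}.ncard ∧
      δ * {f ∈ AllS R O π g h | f.coeff (2 * g) = 0}.ncard ≤
        {f ∈ {f ∈ AllS R O π g h | Irreducible (fk K f) ∧ StrP g O S T T' (fk K f) ∧ Y f} |
          f.coeff (2 * g) = 0}.ncard := by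
  obtain ⟨δ, hδ, h0, hh⟩ := hpos
  obtain ⟨u, hu, hw⟩ := inv_nat' H hN
  refine ⟨δ, hδ, h0, fun h hle => ?_⟩
  obtain ⟨hfin, hp, h2⟩ := hh h hle
  have hbase : ∀ f ∈ All R O π g h,
      f.Monic ∧ f.natDegree = 2 * g + 1 ∧ f.coeff (2 * g) ∈ Lm R O π (h : ℤ) := by
    intro f hf
    refine ⟨hf.1, hf.2.1, ?_⟩
    have := hf.2.2 1 (by omega)
    rwa [Nat.add_sub_cancel, one_mul] at this
  have e1 := Pool.T1P.ncard_stable (S := AllS R O π g h) (h := h) (π := π) hu (hw O)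
    (fun f hf => hbase f hf.1) (fun f hf r hr => Pool.T1P.alls_tay hf hr)
  have e2 := nor_le (O := O) (π := π) (h := h)
    (S := {f ∈ AllS R O π g h | Irreducible (fk K f) ∧ StrP g O S T T' (fk K f) ∧ Y f})
    hu (hfin.subset fun f hf => hf.1.1) (hLf _) (fun f hf => hbase f hf.1.1)
    (fun f hf => by
      obtain ⟨hm, hn, ha⟩ := hbase f hf.1.1
      have hr : -(u * f.coeff (2 * g)) ∈ Lm R O π (h : ℤ) :=
        Pool.T1P.lm_neg (Pool.T1P.lm_mul (hw O) ha)
      refine ⟨Pool.T1P.alls_tay hf.1 hr, Pool.T1P.irr_tay _ hf.2.1, ?_, hY f hm _ hf.2.2.2⟩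
      rw [fk_nor]
      exact nor_strP (hm.map _) (by rw [hm.natDegree_map, hn]) hw hf.2.2.1)
  have h4 : 0 < (Lm R O π (h : ℤ)).ncard := by
    rw [Set.ncard_pos (hLf _)]
    exact ⟨0, by simp [Lm, O.zero_mem]⟩
  have h5 : (0 : ℝ) < ((Lm R O π (h : ℤ)).ncard : ℝ) := by exact_mod_cast h4
  rw [e1] at hp
  refine ⟨Nat.pos_of_mul_pos_right hp, ?_⟩
  have h6 : δ * (AllS R O π g h).ncard ≤
      ({f ∈ {f ∈ AllS R O π g h | Irreducible (fk K f) ∧ StrP g O S T T' (fk K f) ∧ Y f} |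
        f.coeff (2 * g) = 0}.ncard : ℝ) * (Lm R O π (h : ℤ)).ncard := by
    refine h2.trans ?_
    exact_mod_cast e2
  rw [e1] at h6
  push_cast at h6
  rw [← mul_assoc] at h6
  exact le_of_mul_le_mul_right h6 h5

end

end Pool.STR
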