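import Pool.Agent.H30.T1M.ZFNM
import Pool.Agent.H30.T1M.ZPOM
import Pool.Agent.H96.STR.SRZ

/-!
# STR, module SFN: from the abstract to the concrete setting
-/

set_option autoImplicit false

namespace Pool.STR

open Polynomial Matrix Pool.HYP Pool.TOW Pool.AVS Pool.T1 Pool.T1M IsDedekindDomain

/-- The theorem in the abstract setting. -/
def PSTStmt : Prop :=
  ∀ (R : Type) [CommRing R] [IsDedekindDomain R] (K : Type) [Field K] [Algebra R K]
    [IsFractionRing R K] (O : ValuationSubring K) (π : K), GR R O π → Der R O π → Mink R O π →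
    (∃ Ram : Finset (HeightOneSpectrum R), Rec (R := R) (O := O) π Ram) →
    ∀ g : ℕ, 1 ≤ g → ∀ (E₀ : Type) [Field E₀] [Algebra K E₀], FiniteDimensional K E₀ →
    IsGalois K E₀ → (∃ m : ℕ, Module.finrank K E₀ = 2 ^ m) →
    ∀ S0 : Finset (HeightOneSpectrum R), ∃ T T' : Finset (HeightOneSpectrum R),
      T.Nonempty ∧ Disjoint T T' ∧ S0 ⊆ T' ∧ (∀ P ∈ T, SplV E₀ (vP K P)) ∧
      PosS O π g S0 T T' fun f => SelA (fkE K E₀ f) ∧ TowPA K T f

theorem pst (hV : ZVALStmt) (hIRV : ZIRVStmt) (hCLS : ZCLSStmt) (hDS : DSKStmt)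
    (hEA : EXDAStmt) (hEB : ZEXDStmt)
    (hALL : ALLKStmt) (hFAM : FAMKStmt) (hIRR : IRRKStmt) (hTWF : TWFKStmt) (hTWJ : TWJKStmt)
    (hGRO : GROWStmt) (hBAD : BADKStmt) (hFL : FAMLKStmt) (hRAM : ZRAMStmt) (hSPL : ZSPLStmt)
    (hIRS : ZIRSStmt) (hA : Pool.T1.GRAStmt) (hB : Pool.T1.GRBStmt)
    (hE : Pool.T1.GREStmt) (hKEY : KEYKStmt) (hON3 : ZOMStmt) (hDEN : DENKStmt) : PSTStmt := by
  intro R _ _ K _ _ _ O π H hder hmink hrec g hg E₀ _ _ hf0 hg0 hd0 S0
  obtain ⟨-, hU, -, hL, -⟩ := hA R K O π H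
  obtain ⟨C, hC⟩ := hB R K O π H
  obtain ⟨hfin, -⟩ := hE R K O π H
  obtain ⟨Ck, -, hk⟩ := hKEY R K O π H hmink g hg
  obtain ⟨Ram, hRam⟩ := hrec
  obtain ⟨A, hAd⟩ := hDEN R K O π H hder g hg
  exact pss_core H hV hIRV hCLS hDS hEA hEB hALL hFAM hIRR hTWF hTWJ hGRO hBAD hFL hRAM hSPL
    hIRS hU hL ⟨C, fun I m h1 h2 => (hC I m h1 h2).1⟩ ⟨C, fun I m h1 h2 => (hC I m h1 h2).2⟩
    hfin g hg ⟨Ck, hk⟩ Ram A hAd E₀ hf0 hg0 S0 (fun T f => TowPA K T f)
    (fun f => SelA (fkE K E₀ f))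
    (fun T f _ _ hT hU htw => htw E₀ hf0 hg0 hd0 hT hU)
    (hON3 R K O π H g Ram hg hRam)

section

variable {F : Type} [Field F] {K : Type} [Field K] [Algebra (RatFunc F) K]
  [FiniteDimensional (RatFunc F) K] [Algebra.IsSeparable (RatFunc F) K]

/-- The ring is contained in all valuation rings except `O`. -/
theorem rr_mem {O : ValuationSubring K} (hO : OnePole F O) {π : K} (H : GR (RR F K) O π)
    (hP : ∀ (m : ℕ) (a : K), Pole F O m a ↔
      ∃ r ∈ Lm (RR F K) O π (m : ℤ), algebraMap (RR F K) K r = a)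
    {w : ValuationSubring K} (hw : w ≠ O) (a : RR F K) : algebraMap (RR F K) K a ∈ w := by
  have ht : algebraMap (RatFunc F) K RatFunc.X ∈ w := by
    by_contra h
    exact hw (hO.2 w h)
  by_cases ha : algebraMap (RR F K) K a = 0
  · rw [ha]
    exact w.zero_mem
  · obtain ⟨n, hn, -⟩ := H.val _ ha
    have h1 : a ∈ Lm (RR F K) O π (((-n).toNat : ℕ) : ℤ) := by
      obtain ⟨k, hk⟩ : ∃ k : ℕ, (((-n).toNat : ℕ) : ℤ) + n = k := by
        refine ⟨((((-n).toNat : ℕ) : ℤ) + n).toNat, ?_⟩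
        omega
      show algebraMap (RR F K) K a * π ^ (((-n).toNat : ℕ) : ℤ) ∈ O
      have h2 : algebraMap (RR F K) K a * π ^ (((-n).toNat : ℕ) : ℤ) =
          algebraMap (RR F K) K a / π ^ n * π ^ k := by
        have h3 : (((-n).toNat : ℕ) : ℤ) = k - n := by omega
        rw [h3, zpow_sub₀ H.pi_ne, zpow_natCast]
        field_simp
      rw [h2]
      exact O.mul_mem _ _ hn (pow_mem H.pi_mem k)
    exact ((hP _ _).2 ⟨a, h1, rfl⟩).1 w ht

/-- The places of `K`. -/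
theorem ex_prime (hVAL : ZVALStmt) {O : ValuationSubring K} (hO : OnePole F O) {π : K}
    (H : GR (RR F K) O π)
    (hP : ∀ (m : ℕ) (a : K), Pole F O m a ↔
      ∃ r ∈ Lm (RR F K) O π (m : ℤ), algebraMap (RR F K) K r = a)
    {w : ValuationSubring K} (hw1 : w ≠ ⊤) (hw : w ≠ O) :
    ∃ P : HeightOneSpectrum (RR F K), w = vP K P :=
  (hVAL (RR F K) K).1 w hw1 fun a => rr_mem hO H hP hw a

theorem vp_ne (hVAL : ZVALStmt) {O : ValuationSubring K} (hO : OnePole F O)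
    (P : HeightOneSpectrum (RR F K)) : vP K P ≠ ⊤ ∧ vP K P ≠ O := by
  obtain ⟨-, hV2, -⟩ := hVAL (RR F K) K
  refine ⟨(hV2 P).1, ?_⟩
  intro h5
  refine hO.1 ?_
  rw [← h5]
  have h6 := (hV2 P).2.1 (xR F K X)
  rwa [algMap_RR, xR_coe, RatFunc.algebraMap_X] at h6

/-- From the abstract local structure. -/
theorem strV_of (hVAL : ZVALStmt) {O : ValuationSubring K} (hO : OnePole F O) {π : K}
    (H : GR (RR F K) O π)
    (hP : ∀ (m : ℕ) (a : K), Pole F O m a ↔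
      ∃ r ∈ Lm (RR F K) O π (m : ℤ), algebraMap (RR F K) K r = a)
    [DecidableEq (ValuationSubring K)] {g : ℕ}
    {S T T' : Finset (HeightOneSpectrum (RR F K))} {f : K[X]} (h : StrP g O S T T' f) :
    StrV g O (S.image fun P => vP K P) (T.image fun P => vP K P) (T'.image fun P => vP K P)
      f := by
  obtain ⟨h1, h2, h3, h4, h5⟩ := h
  refine ⟨fun w hw hw' hwT hwT' => ?_, fun w hw => ?_, fun w hw => ?_, fun w hw => ?_⟩
  · obtain ⟨P, rfl⟩ := ex_prime hVAL hO H hP hw hw'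
    exact h1 P (fun h => hwT (Finset.mem_image_of_mem _ h))
      fun h => hwT' (Finset.mem_image_of_mem _ h)
  · obtain ⟨P, hPS, rfl⟩ := Finset.mem_image.1 hw
    exact h2 P hPS
  · rcases hw with hw | rfl
    · obtain ⟨P, hPS, rfl⟩ := Finset.mem_image.1 hw
      exact h3 P hPS
    · exact h4
  · obtain ⟨P, hPS, rfl⟩ := Finset.mem_image.1 hw
    exact h5 P hPS

end

theorem sfn (hGRI : GRIStmt) (hDER : DERIStmt) (hMIN : MINKIStmt) (hREC : RECIStmt)
    (hA : Pool.T1.GRAStmt) (hPOS : PSTStmt) (hTRM : ZTRMStmt) (hVAL : ZVALStmt)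
    (hIRV : ZIRVStmt) : MainStrStmt := by
  classical
  intro F _ _ h2 K _ _ _ _ O hO g hg E₀ _ _ hf0 hg0 hd0 S hS
  obtain ⟨⟨π, hπ⟩, hall⟩ := hGRI F h2 K O hO
  obtain ⟨H, hP⟩ := hall π hπ
  obtain ⟨hV1, hV2, hV3⟩ := id hVAL (RR F K) K
  obtain ⟨S0, hS0⟩ : ∃ S0 : Finset (HeightOneSpectrum (RR F K)),
      S0.image (fun P => vP K P) = S := by
    obtain ⟨s, -, hs⟩ := (Finset.subset_set_image_iff (s := Set.univ) (t := S)
      (f := fun P : HeightOneSpectrum (RR F K) => vP K P)).1 (by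
        intro w hw
        obtain ⟨P, hPw⟩ := ex_prime hVAL hO H hP (hS w hw).1 (hS w hw).2
        exact ⟨P, Set.mem_univ _, hPw.symm⟩)
    exact ⟨s, hs⟩
  obtain ⟨T, T', hTne, hTd, hST, hT, hpos⟩ := hPOS (RR F K) K O π H (hDER F h2 K O hO π hπ)
    (hMIN F h2 K O hO π hπ) (hREC F h2 K O hO π hπ) g hg E₀ hf0 hg0 hd0 S0
  have hLf : ∀ m : ℤ, (Lm (RR F K) O π m).Finite := by
    obtain ⟨-, hU, -, -, -⟩ := hA (RR F K) K O π H
    exact fun m => (hU m).1
  have hposz := fun hN : ((2 * g + 1 : ℕ) : F) ≠ 0 => posSZ H (by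
      have h1 : ((2 * g + 1 : ℕ) : RR F K) = xR F K (C ((2 * g + 1 : ℕ) : F)) := by
        rw [map_natCast, map_natCast]
      rw [h1]
      exact ((isUnit_iff_ne_zero.2 hN).map C).map (xR F K)) hLf
    (fun f hf r hY => by
      have h1 : taylor r f = f.comp (X - C (-r)) := by
        rw [taylor_apply, C_neg, sub_neg_eq_add]
      obtain ⟨h3, h4⟩ := hTRM (RR F K) K T f (-r) hf
      rw [h1]
      exact ⟨(h4 E₀).2 hY.1, h3.2 hY.2⟩) hpos
  obtain ⟨δ, hδ, h0, hh⟩ := hpos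
  refine ⟨T.image fun P => vP K P, T'.image fun P => vP K P, ⟨?_, ?_, ?_, ?_, ?_⟩, ?_⟩
  · exact hTne.image _
  · rw [Finset.disjoint_image hV3]
    exact hTd
  · rw [← hS0]
    exact Finset.image_subset_image hST
  · intro w hw
    obtain ⟨P, -, rfl⟩ := Finset.mem_image.1 hw
    exact vp_ne hVAL hO P
  · intro w hw
    obtain ⟨P, hPT, rfl⟩ := Finset.mem_image.1 hw
    exact ⟨(vp_ne hVAL hO P).1, (vp_ne hVAL hO P).2, hT P hPT⟩
  have hgood : ∀ q : (RR F K)[X], q.Monic → Irreducible (fk K q) →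
      StrP g O S0 T T' (fk K q) → SelA (fkE K E₀ q) → TowPA K T q →
      GoodV g O S (T.image fun P => vP K P) (T'.image fun P => vP K P) E₀ (fk K q) := by
    intro q hq h1 h2 h3 h4
    refine ⟨h1, h3, tow_image hVAL hIRV hO T q hq h4, ?_⟩
    have h5 := strV_of hVAL hO H hP h2
    rwa [hS0] at h5
  have hAi : ∀ h, (HypK F O g h) = (fun f : (RR F K)[X] => fk K f) '' AllS (RR F K) O π g h :=
    fun h => hyp_image hP g h
  have hn : ∀ h, (HypK F O g h).ncard = (AllS (RR F K) O π g h).ncard := by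
    intro h
    rw [hAi h, Set.ncard_image_of_injective _ fk_inj]
  have hfinS : ∀ h, h0 ≤ h → (AllS (RR F K) O π g h).Finite := fun h hh' =>
    (hh h hh').1.subset fun f hf => hf.1
  have hc2 : ∀ q : (RR F K)[X], (fk K q).coeff (2 * g) = 0 ↔ q.coeff (2 * g) = 0 := by
    intro q
    rw [coeff_map, map_eq_zero_iff _ (IsFractionRing.injective (RR F K) K)]
  by_cases hN : ((2 * g + 1 : ℕ) : F) ≠ 0
  · obtain ⟨δ', hδ', h0', hh'⟩ := hposz hN
    refine ⟨min δ δ', lt_min hδ hδ', max h0 h0', fun h hle => ?_⟩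
    have hle1 : h0 ≤ h := le_trans (le_max_left _ _) hle
    have hle2 : h0' ≤ h := le_trans (le_max_right _ _) hle
    obtain ⟨h3, h4, h5⟩ := hh h hle1
    obtain ⟨h6, h7⟩ := hh' h hle2
    refine ⟨?_, ?_, ?_, fun _ => ⟨?_, ?_⟩⟩
    · rw [hAi h]
      exact (hfinS h hle1).image _
    · rw [hn]
      exact h4
    · rw [hn]
      refine (mul_le_mul_of_nonneg_right (min_le_left _ _) (by positivity)).trans (h5.trans ?_)
      rw [hAi h, Nat.cast_le]
      exact sep_le (hfinS h hle1) _ _ fun q hq hq2 =>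
        hgood q hq.1.1 hq2.1 hq2.2.1 hq2.2.2.1 hq2.2.2.2
    · rw [hAi h, sep_image (fun f => f.coeff (2 * g) = 0)]
      simp only [hc2]
      exact h6
    · rw [hAi h, sep_image (fun f => f.coeff (2 * g) = 0)]
      simp only [hc2]
      refine (mul_le_mul_of_nonneg_right (min_le_right _ _) (by positivity)).trans
        (h7.trans ?_)
      rw [Nat.cast_le]
      refine (Set.ncard_le_ncard (t := {f ∈ AllS (RR F K) O π g h | f.coeff (2 * g) = 0 ∧
        Irreducible (fk K f) ∧ StrP g O S0 T T' (fk K f) ∧ SelA (fkE K E₀ f) ∧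
        TowPA K T f}) (fun q hq => ⟨hq.1.1, hq.2, hq.1.2⟩)
        ((hfinS h hle1).subset fun f hf => hf.1)).trans ?_
      exact sep_le (hfinS h hle1) _ _ fun q hq hq2 =>
        ⟨(hc2 q).2 hq2.1, hgood q hq.1.1 hq2.2.1 hq2.2.2.1 hq2.2.2.2.1 hq2.2.2.2.2⟩
  · refine ⟨δ, hδ, h0, fun h hle => ?_⟩
    obtain ⟨h3, h4, h5⟩ := hh h hle
    refine ⟨?_, ?_, ?_, fun h6 => (hN h6).elim⟩
    · rw [hAi h]
      exact (hfinS h hle).image _
    · rw [hn]
      exact h4
    · rw [hn]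
      refine h5.trans ?_
      rw [hAi h, Nat.cast_le]
      exact sep_le (hfinS h hle) _ _ fun q hq hq2 =>
        hgood q hq.1.1 hq2.1 hq2.2.1 hq2.2.2.1 hq2.2.2.2

open Pool.T44 in
/-- The intrinsic form of the main theorem. -/
theorem sin (h : MainStrStmt) : IntrStrStmt := by
  intro F _ _ h2 K _ _ _ htr v hv g hg E₀ _ _ hfd hgal htwo S hS
  obtain ⟨a, hfin, hsep, hone, hpole⟩ := one_pole (F := F) htr v hv
  have hyp : ∀ h : ℕ, HypK F v g h = HypV v g h := by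
    intro h
    unfold HypK HypV
    simp only [hpole]
  have := h F h2 K v hone g hg E₀ hfd hgal htwo S hS
  simp only [hyp] at this
  exact this

end Pool.STR
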