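import Pool.Agent.H30.T1M.Defs

/-!
# STR: the positive proportion theorem of T1M with the local structure of the curves: definitions

`K` is a field, a place of `K` is a valuation ring `w ≠ K` of `K`.
-/

set_option autoImplicit false

namespace Pool.STR

open Polynomial Pool.HYP Pool.TOW Pool.T1 Pool.T44 Pool.T1M

section Places

variable {K : Type} [Field K]

/-- `f` has coefficients in `w`, and it is in no `𝔪²`, `𝔪` a maximal ideal of `w[x]` which contains
the maximal ideal of `w`. -/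
def RegV (w : ValuationSubring K) (f : K[X]) : Prop :=
  ∃ f₀ : w[X], f₀.map (algebraMap w K) = f ∧
    ∀ 𝔪 : Ideal w[X], 𝔪.IsMaximal → (∀ a ∈ IsLocalRing.maximalIdeal w, C a ∈ 𝔪) → f₀ ∉ 𝔪 ^ 2

/-- `f` has coefficients in `w`, and over the residue field it is the product of some `x - c` and an
irreducible polynomial of degree `2 g`. -/
def LinV (g : ℕ) (w : ValuationSubring K) (f : K[X]) : Prop :=
  ∃ f₀ : w[X], f₀.map (algebraMap w K) = f ∧
    ∃ (c : IsLocalRing.ResidueField w) (γ : (IsLocalRing.ResidueField w)[X]),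
      γ.natDegree = 2 * g ∧ Irreducible γ ∧ f₀.map (IsLocalRing.residue w) = (X - C c) * γ

/-- The local structure of `f`, of degree `2 g + 1`, for `v` and the finite sets `S`, `T`, `T'` of
places.
(1) At the places outside `T`, `T'`, `v`: `RegV`; so `y² = f(x)` is a regular model with irreducible
reduced fibre.
(2) At the places of `S`: `f` has coefficients in `w` and is irreducible over the residue field.
(3) At the places of `T'` and at `v`: this holds for some `f.scaleRoots a`, `a ≠ 0`; so `f` is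
irreducible over the completions.
(4) At the places of `T`: `LinV` holds for some `f.scaleRoots a⁻¹`, `a ≠ 0` a unit of `w` or a
generator of the maximal ideal of `w`; so the curve has good reduction or is the twist of such a curve
by a uniformizer. -/
def StrV (g : ℕ) (v : ValuationSubring K) (S T T' : Finset (ValuationSubring K)) (f : K[X]) :
    Prop :=
  (∀ w : ValuationSubring K, w ≠ ⊤ → w ≠ v → w ∉ T → w ∉ T' → RegV w f) ∧
  (∀ w ∈ S, IrrV w f) ∧
  (∀ w : ValuationSubring K, w ∈ T' ∨ w = v → ∃ a : K, a ≠ 0 ∧ IrrV w (f.scaleRoots a)) ∧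
  ∀ w ∈ T, ∃ a : K, a ≠ 0 ∧ a ∈ w ∧ (∀ x : K, x ∈ w → x⁻¹ ∉ w → x / a ∈ w) ∧
    LinV g w (f.scaleRoots a⁻¹)

/-- What holds for the curves of the positive proportion. -/
def GoodV (g : ℕ) (v : ValuationSubring K) (S T T' : Finset (ValuationSubring K)) (E₀ : Type)
    [Field E₀] [Algebra K E₀] (f : K[X]) : Prop :=
  Irreducible f ∧ SelA (f.map (algebraMap K E₀)) ∧ TowA v T f ∧ StrV g v S T T' f

/-- The conditions on the finite sets `S`, `T`, `T'` of places. -/
def SetsV (v : ValuationSubring K) (S T T' : Finset (ValuationSubring K)) (E₀ : Type) [Field E₀]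
    [Algebra K E₀] : Prop :=
  T.Nonempty ∧ Disjoint T T' ∧ S ⊆ T' ∧ (∀ w ∈ T', w ≠ ⊤ ∧ w ≠ v) ∧
    ∀ w ∈ T, w ≠ ⊤ ∧ w ≠ v ∧ SplV E₀ w

end Places

/-- The main theorem. -/
def IntrStrStmt : Prop :=
  ∀ (F : Type) [Field F] [Finite F], (2 : F) ≠ 0 → ∀ (K : Type) [Field K] [Algebra F K]
    [Algebra.EssFiniteType F K], Algebra.trdeg F K = 1 →
    ∀ v : ValuationSubring K, v ≠ ⊤ → ∀ g : ℕ, 1 ≤ g →
    ∀ (E₀ : Type) [Field E₀] [Algebra K E₀], FiniteDimensional K E₀ → IsGalois K E₀ →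
    (∃ m : ℕ, Module.finrank K E₀ = 2 ^ m) →
    ∀ S : Finset (ValuationSubring K), (∀ w ∈ S, w ≠ ⊤ ∧ w ≠ v) →
    ∃ T T' : Finset (ValuationSubring K), SetsV v S T T' E₀ ∧
    ∃ δ : ℝ, 0 < δ ∧ ∃ h0 : ℕ, ∀ h : ℕ, h0 ≤ h →
      (HypV v g h).Finite ∧ 0 < (HypV v g h).ncard ∧
      δ * (HypV v g h).ncard ≤ {f ∈ HypV v g h | GoodV g v S T T' E₀ f}.ncard ∧
      (((2 * g + 1 : ℕ) : F) ≠ 0 →
        0 < {f ∈ HypV v g h | f.coeff (2 * g) = 0}.ncard ∧
        δ * {f ∈ HypV v g h | f.coeff (2 * g) = 0}.ncard ≤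
          {f ∈ HypV v g h | f.coeff (2 * g) = 0 ∧ GoodV g v S T T' E₀ f}.ncard)

/-- The same for `K` finite and separable over `F(t)` and a place `O`, the only one where `t` has a
pole. -/
def MainStrStmt : Prop :=
  ∀ (F : Type) [Field F] [Finite F], (2 : F) ≠ 0 → ∀ (K : Type) [Field K]
    [Algebra (RatFunc F) K] [FiniteDimensional (RatFunc F) K] [Algebra.IsSeparable (RatFunc F) K]
    (O : ValuationSubring K), OnePole F O → ∀ g : ℕ, 1 ≤ g →
    ∀ (E₀ : Type) [Field E₀] [Algebra K E₀], FiniteDimensional K E₀ → IsGalois K E₀ →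
    (∃ m : ℕ, Module.finrank K E₀ = 2 ^ m) →
    ∀ S : Finset (ValuationSubring K), (∀ w ∈ S, w ≠ ⊤ ∧ w ≠ O) →
    ∃ T T' : Finset (ValuationSubring K), SetsV O S T T' E₀ ∧
    ∃ δ : ℝ, 0 < δ ∧ ∃ h0 : ℕ, ∀ h : ℕ, h0 ≤ h →
      (HypK F O g h).Finite ∧ 0 < (HypK F O g h).ncard ∧
      δ * (HypK F O g h).ncard ≤ {f ∈ HypK F O g h | GoodV g O S T T' E₀ f}.ncard ∧
      (((2 * g + 1 : ℕ) : F) ≠ 0 →
        0 < {f ∈ HypK F O g h | f.coeff (2 * g) = 0}.ncard ∧
        δ * {f ∈ HypK F O g h | f.coeff (2 * g) = 0}.ncard ≤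
          {f ∈ HypK F O g h | f.coeff (2 * g) = 0 ∧ GoodV g O S T T' E₀ f}.ncard)

end Pool.STR
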