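import Pool.Agent.H29.T1.ZS
import Pool.Agent.H96.STR.Defs
import Pool.Agent.H25.T1P.MAX

/-!
# STR, module VPX: the valuation ring of a prime, and the local conditions
-/

set_option autoImplicit false

namespace Pool.STR

open Polynomial Matrix Pool.HYP Pool.TOW Pool.AVS IsDedekindDomain Pool.T1

section

variable {R : Type} [CommRing R] [IsDedekindDomain R] {K : Type} [Field K] [Algebra R K]
  [IsFractionRing R K]

theorem vp_mem (hV : ZVALStmt) (P : HeightOneSpectrum R) (x : K) :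
    x ∈ vP K P ↔ ∃ m : R, m ∉ P.asIdeal ∧ ∃ a : R, algebraMap R K m * x = algebraMap R K a := by
  obtain ⟨-, hV2, -⟩ := hV R K
  obtain ⟨-, -, hset⟩ := hV2 P
  rw [← SetLike.mem_coe, hset]
  rfl

/-- The ring `R` in the valuation ring of `P`. -/
theorem vpx (hV : ZVALStmt) (P : HeightOneSpectrum R) : ∃ j : R →+* vP K P,
    (∀ a, ((j a : vP K P) : K) = algebraMap R K a) ∧
    (∀ a, IsLocalRing.residue (vP K P) (j a) = 0 ↔ a ∈ P.asIdeal) ∧
    (∀ x : vP K P, ∃ m : R, m ∉ P.asIdeal ∧ ∃ a : R, j m * x = j a) ∧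
    Function.Surjective ((IsLocalRing.residue (vP K P)).comp j) := by
  obtain ⟨-, hV2, -⟩ := id hV R K
  obtain ⟨-, hint, -⟩ := hV2 P
  have hmem : ∀ x : K, x ∈ vP K P ↔ ∃ m : R, m ∉ P.asIdeal ∧ ∃ a : R,
      algebraMap R K m * x = algebraMap R K a := vp_mem hV P
  have hinj : Function.Injective (algebraMap R K) := IsFractionRing.injective R K
  have hne : ∀ a : R, a ∉ P.asIdeal → algebraMap R K a ≠ 0 := fun a ha h0 => by
    have : a = 0 := hinj (by rw [h0, map_zero])
    exact ha (this ▸ P.asIdeal.zero_mem)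
  obtain ⟨j, hj⟩ : ∃ j : R →+* vP K P, ∀ a, ((j a : vP K P) : K) = algebraMap R K a :=
    ⟨(algebraMap R K).codRestrict (vP K P) hint, fun a => rfl⟩
  obtain ⟨r, hr⟩ : ∃ r : R →+* IsLocalRing.ResidueField (vP K P),
      r = (IsLocalRing.residue (vP K P)).comp j := ⟨_, rfl⟩
  have hker : ∀ a : R, r a = 0 ↔ a ∈ P.asIdeal := by
    intro a
    rw [hr, RingHom.comp_apply, IsLocalRing.residue_eq_zero_iff, IsLocalRing.mem_maximalIdeal,
      mem_nonunits_iff]
    constructor
    · intro h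
      by_contra ha
      apply h
      have h1 : (algebraMap R K a)⁻¹ ∈ vP K P :=
        (hmem _).2 ⟨a, ha, 1, by rw [mul_inv_cancel₀ (hne a ha), map_one]⟩
      refine IsUnit.of_mul_eq_one ⟨_, h1⟩ (Subtype.ext ?_)
      show ((j a : vP K P) : K) * (algebraMap R K a)⁻¹ = 1
      rw [hj, mul_inv_cancel₀ (hne a ha)]
    · intro ha hu
      obtain ⟨v, hv⟩ := isUnit_iff_exists_inv.1 hu
      have h1 : algebraMap R K a * (v : K) = 1 := by
        rw [← hj]
        exact congrArg Subtype.val hv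
      obtain ⟨m, hm, b, hb⟩ := (hmem (v : K)).1 v.2
      apply hm
      have h2 : m = a * b := hinj (by
        rw [map_mul, ← hb]
        calc algebraMap R K m = algebraMap R K m * (algebraMap R K a * (v : K)) := by
              rw [h1, mul_one]
          _ = algebraMap R K a * (algebraMap R K m * (v : K)) := by ring)
      rw [h2]
      exact P.asIdeal.mul_mem_right _ ha
  have hden : ∀ x : vP K P, ∃ m : R, m ∉ P.asIdeal ∧ ∃ a : R, j m * x = j a := by
    intro x
    obtain ⟨m, hm, a, ha⟩ := (hmem (x : K)).1 x.2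
    refine ⟨m, hm, a, Subtype.ext ?_⟩
    show ((j m : vP K P) : K) * (x : K) = ((j a : vP K P) : K)
    rw [hj, hj, ha]
  have hsurj : Function.Surjective r := by
    intro y
    obtain ⟨x, rfl⟩ := IsLocalRing.residue_surjective y
    obtain ⟨m, hm, a, ha⟩ := hden x
    have hmax : P.asIdeal.IsMaximal := P.isMaximal
    obtain ⟨n, hn⟩ := Ideal.IsMaximal.exists_inv hmax hm
    obtain ⟨i, hi, hni⟩ := hn
    have h1 : r n * r m = 1 := by
      have h2 : r (n * m) + r i = 1 := by rw [← map_add, hni, map_one]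
      rw [(hker i).2 hi, add_zero, map_mul] at h2
      exact h2
    have h3 : r m * IsLocalRing.residue (vP K P) x = r a := by
      rw [hr, RingHom.comp_apply, RingHom.comp_apply, ← map_mul, ha]
    refine ⟨n * a, ?_⟩
    rw [map_mul, ← h3, ← mul_assoc, h1, one_mul]
  refine ⟨j, hj, fun a => ?_, hden, ?_⟩
  · rw [← hker a, hr]
    rfl
  · rw [← hr]
    exact hsurj

omit [IsDedekindDomain R] in
/-- Irreducibility over the residue field. -/
theorem irr_res {P : HeightOneSpectrum R} {k : Type} [Field k] (r : R →+* k)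
    (hker : ∀ a : R, r a = 0 ↔ a ∈ P.asIdeal) (hsurj : Function.Surjective r) (f : R[X]) :
    Irreducible (md P.asIdeal f) ↔ Irreducible (f.map r) := by
  have hbij : Function.Bijective (Ideal.Quotient.lift P.asIdeal r fun a ha => (hker a).2 ha) := by
    constructor
    · rw [injective_iff_map_eq_zero]
      intro x hx
      obtain ⟨a, rfl⟩ := Ideal.Quotient.mk_surjective x
      rw [Ideal.Quotient.lift_mk] at hx
      exact Ideal.Quotient.eq_zero_iff_mem.2 ((hker a).1 hx)
    · intro y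
      obtain ⟨a, rfl⟩ := hsurj y
      exact ⟨Ideal.Quotient.mk _ a, Ideal.Quotient.lift_mk _ _ _⟩
  rw [← MulEquiv.irreducible_iff (Polynomial.mapEquiv (RingEquiv.ofBijective _ hbij)).toMulEquiv]
  have h2 : (Polynomial.mapEquiv (RingEquiv.ofBijective _ hbij)).toMulEquiv (md P.asIdeal f) =
      f.map r := by
    show Polynomial.map _ (f.map (Ideal.Quotient.mk P.asIdeal)) = f.map r
    rw [Polynomial.map_map]
    congr 1
  rw [h2]

/-- An inverse modulo `P ^ 2`. -/
theorem inv_sq (P : HeightOneSpectrum R) {d : R} (hd : d ∉ P.asIdeal) :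
    ∃ e : R, e * d - 1 ∈ P.asIdeal ^ 2 := by
  have hmax : P.asIdeal.IsMaximal := P.isMaximal
  have h1 : IsCoprime (Ideal.span {d}) P.asIdeal := by
    rw [Ideal.isCoprime_iff_sup_eq, sup_comm]
    exact hmax.1.2 _ (lt_of_le_of_ne le_sup_left fun h2 => hd (by
      rw [h2]
      exact Ideal.mem_sup_right (Ideal.mem_span_singleton_self d)))
  have h2 : IsCoprime (Ideal.span {d}) (P.asIdeal ^ 2) := h1.pow_right
  obtain ⟨i, hi, j, hj, hij⟩ := Ideal.isCoprime_iff_exists.1 h2
  obtain ⟨e, rfl⟩ := Ideal.mem_span_singleton'.1 hi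
  refine ⟨e, ?_⟩
  have h3 : e * d - 1 = -j := by rw [← hij]; ring
  rw [h3]
  exact (P.asIdeal ^ 2).neg_mem hj

/-- The polynomial over the valuation ring. -/
theorem map_j {P : HeightOneSpectrum R} {j : R →+* vP K P}
    (hj : ∀ a, ((j a : vP K P) : K) = algebraMap R K a) (f : R[X]) :
    (f.map j).map (algebraMap (vP K P) K) = fk K f := by
  rw [Polynomial.map_map]
  congr 1
  exact RingHom.ext hj

/-- **(1)** Where the curve is smooth. -/
theorem regV_of (hV : ZVALStmt) (P : HeightOneSpectrum R) (f : R[X])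
    (hf : ¬ Sing P.asIdeal f) : RegV (vP K P) (fk K f) := by
  obtain ⟨j, hj, hker, hden, hsurj⟩ := vpx (K := K) hV P
  have hjinj : Function.Injective j := by
    intro a b hab
    apply IsFractionRing.injective R K
    rw [← hj, ← hj, hab]
  refine ⟨f.map j, map_j hj f, ?_⟩
  intro 𝔪 hm hmw hfm
  apply hf
  set φ : R[X] →+* (vP K P)[X] := Polynomial.mapRingHom j with hφ
  have hφinj : Function.Injective φ := Polynomial.map_injective j hjinj
  -- representatives modulo `𝔪`
  have hrep : ∀ p : (vP K P)[X], ∃ q : R[X], p - φ q ∈ 𝔪 := by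
    intro p
    induction p using Polynomial.induction_on' with
    | add p q hp hq =>
      obtain ⟨p', hp'⟩ := hp
      obtain ⟨q', hq'⟩ := hq
      refine ⟨p' + q', ?_⟩
      rw [map_add, add_sub_add_comm]
      exact 𝔪.add_mem hp' hq'
    | monomial n a =>
      obtain ⟨b, hb⟩ := hsurj (IsLocalRing.residue _ a)
      refine ⟨monomial n b, ?_⟩
      have h1 : φ (monomial n b) = monomial n (j b) := Polynomial.map_monomial j
      have h2 : a - j b ∈ IsLocalRing.maximalIdeal (vP K P) := by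
        rw [← IsLocalRing.residue_eq_zero_iff, map_sub, ← hb]
        exact sub_self _
      rw [h1, ← monomial_sub, ← C_mul_X_pow_eq_monomial]
      exact 𝔪.mul_mem_right _ (hmw _ h2)
  obtain ⟨𝔫, h𝔫⟩ : ∃ 𝔫 : Ideal R[X], 𝔫 = 𝔪.comap φ := ⟨_, rfl⟩
  have hnm : ∀ q : R[X], q ∈ 𝔫 ↔ φ q ∈ 𝔪 := fun q => by rw [h𝔫]; exact Iff.rfl
  have hnmax : 𝔫.IsMaximal := by
    have hs : Function.Surjective ((Ideal.Quotient.mk 𝔪).comp φ) := by
      intro y
      obtain ⟨p, rfl⟩ := Ideal.Quotient.mk_surjective y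
      obtain ⟨q, hq⟩ := hrep p
      exact ⟨q, (Ideal.Quotient.eq.2 hq).symm⟩
    let _ : Field ((vP K P)[X] ⧸ 𝔪) := Ideal.Quotient.field 𝔪
    have h1 : (RingHom.ker ((Ideal.Quotient.mk 𝔪).comp φ)).IsMaximal :=
      RingHom.ker_isMaximal_of_surjective _ hs
    have h2 : RingHom.ker ((Ideal.Quotient.mk 𝔪).comp φ) = 𝔫 := by
      ext q
      rw [RingHom.mem_ker, RingHom.comp_apply, Ideal.Quotient.eq_zero_iff_mem, hnm]
    rwa [h2] at h1
  have hPm : P.asIdeal.IsMaximal := P.isMaximal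
  have hPn1 : ∀ a : R, a ∈ P.asIdeal → C a ∈ 𝔫 := by
    intro a ha
    rw [hnm]
    have h1 : φ (C a) = C (j a) := Polynomial.map_C j
    rw [h1]
    exact hmw _ ((IsLocalRing.residue_eq_zero_iff _).1 ((hker a).2 ha))
  have hPn : ∀ a : R, a ∈ P.asIdeal ↔ C a ∈ 𝔫 := by
    intro a
    refine ⟨hPn1 a, fun ha => ?_⟩
    have h1 : P.asIdeal ≤ 𝔫.comap C := fun b hb => hPn1 b hb
    have h2 : 𝔫.comap C ≠ ⊤ := Ideal.comap_ne_top _ hnmax.ne_top
    rw [hPm.eq_of_le h2 h1]
    exact ha
  -- the square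
  have hsq : ∀ p ∈ 𝔪 ^ 2, ∃ s : R, s ∉ P.asIdeal ∧ ∃ q ∈ 𝔫 ^ 2, C (j s) * p = φ q := by
    have hden1 : ∀ p : (vP K P)[X], ∃ s : R, s ∉ P.asIdeal ∧ ∃ q : R[X], C (j s) * p = φ q := by
      intro p
      induction p using Polynomial.induction_on' with
      | add p q hp hq =>
        obtain ⟨s, hs, p', hp'⟩ := hp
        obtain ⟨t, ht, q', hq'⟩ := hq
        refine ⟨s * t, fun h => (hPm.isPrime.mem_or_mem h).elim hs ht,
          C t * p' + C s * q', ?_⟩
        have h1 : ∀ z : R, φ (C z) = C (j z) := fun z => Polynomial.map_C j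
        rw [map_add φ, map_mul φ, map_mul φ, h1, h1, ← hp', ← hq', map_mul j, C_mul]
        ring
      | monomial n a =>
        obtain ⟨m, hm', b, hb⟩ := hden a
        refine ⟨m, hm', monomial n b, ?_⟩
        have h1 : φ (monomial n b) = monomial n (j b) := Polynomial.map_monomial j
        rw [h1, C_mul_monomial, hb]
    have hC : ∀ z : R, φ (C z) = C (j z) := fun z => Polynomial.map_C j
    intro p hp
    rw [pow_two] at hp
    refine Submodule.mul_induction_on hp ?_ ?_
    · intro x hx y hy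
      obtain ⟨s, hs, x', hx'⟩ := hden1 x
      obtain ⟨t, ht, y', hy'⟩ := hden1 y
      refine ⟨s * t, fun h => (hPm.isPrime.mem_or_mem h).elim hs ht, x' * y', ?_, ?_⟩
      · rw [pow_two]
        refine Ideal.mul_mem_mul ((hnm _).2 ?_) ((hnm _).2 ?_)
        · rw [← hx']
          exact 𝔪.mul_mem_left _ hx
        · rw [← hy']
          exact 𝔪.mul_mem_left _ hy
      · show C (j (s * t)) * (x * y) = φ (x' * y')
        rw [map_mul φ, ← hx', ← hy', map_mul j, C_mul]
        ring
    · rintro x y ⟨s, hs, x', hx', hx⟩ ⟨t, ht, y', hy', hy⟩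
      refine ⟨s * t, fun h => (hPm.isPrime.mem_or_mem h).elim hs ht,
        C t * x' + C s * y', Ideal.add_mem _ (Ideal.mul_mem_left _ _ hx')
          (Ideal.mul_mem_left _ _ hy'), ?_⟩
      rw [map_add φ, map_mul φ, map_mul φ, hC, hC, ← hx, ← hy, map_mul j, C_mul]
      ring
  obtain ⟨s, hs, q, hq, hsq'⟩ := hsq _ hfm
  have h1 : C s * f = q := by
    apply hφinj
    have h2 : φ (C s) = C (j s) := Polynomial.map_C j
    rw [← hsq', map_mul, h2]
    rfl
  obtain ⟨e, he⟩ := inv_sq P hs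
  have h2 : C (e * s - 1) ∈ 𝔫 ^ 2 := by
    have h3 : (P.asIdeal ^ 2).map C ≤ 𝔫 ^ 2 := by
      rw [Ideal.map_pow]
      refine Ideal.pow_right_mono ?_ 2
      rw [Ideal.map_le_iff_le_comap]
      exact fun a ha => hPn1 a ha
    exact h3 (Ideal.mem_map_of_mem _ he)
  have h3 : f ∈ 𝔫 ^ 2 := by
    have h4 : f = C e * (C s * f) - C (e * s - 1) * f := by
      rw [C_sub, C_mul, C_1]
      ring
    rw [h4, h1]
    exact Ideal.sub_mem _ (Ideal.mul_mem_left _ _ hq) (Ideal.mul_mem_right _ _ h2)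
  exact Pool.T1P.Max25.sing_of_sq hnmax hPm hPn h3

/-- **(4)** Linear times irreducible. -/
theorem linV_of (hV : ZVALStmt) (P : HeightOneSpectrum R) (f γ : R[X]) (c : R) (g : ℕ)
    (hγ : OkP (2 * g) P.asIdeal γ) (hf : Zer P.asIdeal (f - (X - C c) * γ)) :
    LinV g (vP K P) (fk K f) := by
  obtain ⟨j, hj, hker, hden, hsurj⟩ := vpx (K := K) hV P
  obtain ⟨r, hr⟩ : ∃ r : R →+* IsLocalRing.ResidueField (vP K P),
      r = (IsLocalRing.residue (vP K P)).comp j := ⟨_, rfl⟩
  have hker' : ∀ a : R, r a = 0 ↔ a ∈ P.asIdeal := by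
    intro a
    rw [← hker, hr]
    rfl
  refine ⟨f.map j, map_j hj f, r c, γ.map r, ?_, ?_, ?_⟩
  · rw [hγ.1.natDegree_map, hγ.2.1]
  · rw [← irr_res r hker' (by rw [hr]; exact hsurj)]
    exact hγ.2.2
  · rw [Polynomial.map_map, ← hr]
    have h1 : (f - (X - C c) * γ).map r = 0 := by
      ext i
      rw [coeff_map, coeff_zero]
      exact (hker' _).2 (hf i)
    rw [Polynomial.map_sub, Polynomial.map_mul, Polynomial.map_sub, Polynomial.map_X,
      Polynomial.map_C] at h1
    exact sub_eq_zero.1 h1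

/-- A generator of the maximal ideal. -/
theorem gen_of (hV : ZVALStmt) (P : HeightOneSpectrum R) {d : R} (hd : d ∉ P.asIdeal ^ 2)
    (hd0 : d ≠ 0) (x : K) (hx : x ∈ vP K P) (hx' : x⁻¹ ∉ vP K P) :
    x / algebraMap R K d ∈ vP K P := by
  have hmem := vp_mem (K := K) hV P
  have hinj : Function.Injective (algebraMap R K) := IsFractionRing.injective R K
  have hPm : P.asIdeal.IsMaximal := P.isMaximal
  have hdK : algebraMap R K d ≠ 0 := fun h => hd0 (hinj (by rw [h, map_zero]))
  obtain ⟨m, hm, a, ha⟩ := (hmem x).1 hx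
  rw [hmem]
  by_cases hdP : d ∈ P.asIdeal
  · have haP : a ∈ P.asIdeal := by
      by_contra h
      apply hx'
      rw [hmem]
      refine ⟨a, h, m, ?_⟩
      rw [← ha]
      have hx0 : x ≠ 0 := by
        rintro rfl
        apply h
        have h1 : a = 0 := hinj (by rw [← ha, mul_zero, map_zero])
        rw [h1]
        exact P.asIdeal.zero_mem
      rw [mul_assoc, mul_inv_cancel₀ hx0, mul_one]
    obtain ⟨I, hI⟩ : P.asIdeal ∣ Ideal.span {d} := by
      rw [Ideal.dvd_iff_le, Ideal.span_singleton_le_iff_mem]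
      exact hdP
    obtain ⟨y, hyI, hyP⟩ : ∃ y ∈ I, y ∉ P.asIdeal := by
      by_contra hcon
      push Not at hcon
      apply hd
      have h1 : Ideal.span {d} ≤ P.asIdeal ^ 2 := by
        rw [hI, pow_two]
        exact Ideal.mul_mono_right hcon
      exact h1 (Ideal.mem_span_singleton_self d)
    have h1 : a * y ∈ Ideal.span {d} := by
      rw [hI]
      exact Ideal.mul_mem_mul haP hyI
    obtain ⟨b, hb⟩ := Ideal.mem_span_singleton'.1 h1
    refine ⟨m * y, fun h => (hPm.isPrime.mem_or_mem h).elim hm hyP, b, ?_⟩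
    have h2 : algebraMap R K b * algebraMap R K d = algebraMap R K a * algebraMap R K y := by
      rw [← map_mul, hb, map_mul]
    rw [map_mul]
    field_simp
    linear_combination algebraMap R K y * ha - h2
  · refine ⟨m * d, fun h => (hPm.isPrime.mem_or_mem h).elim hm hdP, a, ?_⟩
    rw [map_mul, ← ha]
    field_simp

end

end Pool.STR
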