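import Pool.Agent.H96.STR.Defs
import Pool.Agent.H96.T1P.TAY

/-!
# STR, module TRS: translation of `x` and the local conditions
-/

set_option autoImplicit false

namespace Pool.STR

open Polynomial Matrix Pool.HYP Pool.TOW Pool.AVS IsDedekindDomain Pool.T1

section

variable {K : Type} [Field K] {w : ValuationSubring K}

/-- `f` has coefficients in `w`. -/
theorem coeff_mem {f : K[X]} (h : ∃ f₀ : w[X], f₀.map (algebraMap w K) = f) (n : ℕ) :
    f.coeff n ∈ w := by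
  obtain ⟨f₀, rfl⟩ := h
  rw [coeff_map]
  exact (f₀.coeff n).2

theorem map_tay' {f : K[X]} {f₀ : w[X]} (h : f₀.map (algebraMap w K) = f) {c : K} {c' : w}
    (hc : algebraMap w K c' = c) : (taylor c' f₀).map (algebraMap w K) = taylor c f := by
  rw [map_taylor, h, hc]

theorem regV_tay {f : K[X]} (h : RegV w f) {c : K} (hc : c ∈ w) : RegV w (taylor c f) := by
  obtain ⟨f₀, hf, hreg⟩ := h
  obtain ⟨c', hc'⟩ : ∃ c' : w, algebraMap w K c' = c := ⟨⟨c, hc⟩, rfl⟩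
  refine ⟨taylor c' f₀, map_tay' hf hc', ?_⟩
  intro 𝔪 hm hmw hcon
  obtain ⟨τ, hτ⟩ : ∃ τ : w[X] ≃+* w[X], ∀ p, τ p = taylor c' p :=
    ⟨(taylorEquiv c').toRingEquiv, fun p => rfl⟩
  obtain ⟨𝔫, h𝔫⟩ : ∃ 𝔫 : Ideal w[X], 𝔫 = 𝔪.comap τ := ⟨_, rfl⟩
  have hnmax : 𝔫.IsMaximal := by
    rw [h𝔫]
    exact Ideal.comap_isMaximal_of_equiv τ
  have hmap : 𝔪.map (τ.symm : w[X] →+* w[X]) = 𝔫 := by
    rw [h𝔫]
    exact Ideal.map_symm τ
  refine hreg 𝔫 hnmax (fun a ha => ?_) ?_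
  · rw [h𝔫]
    show τ (C a) ∈ 𝔪
    rw [hτ, taylor_C]
    exact hmw a ha
  · have h1 : (τ.symm : w[X] →+* w[X]) (taylor c' f₀) ∈
        (𝔪 ^ 2).map (τ.symm : w[X] →+* w[X]) := Ideal.mem_map_of_mem _ hcon
    rw [Ideal.map_pow, hmap, ← hτ] at h1
    have h2 : (τ.symm : w[X] →+* w[X]) (τ f₀) = f₀ := τ.symm_apply_apply f₀
    rwa [h2] at h1

theorem irrV_tay {f : K[X]} (h : IrrV w f) {c : K} (hc : c ∈ w) : IrrV w (taylor c f) := by
  obtain ⟨f₀, hf, hirr⟩ := h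
  obtain ⟨c', hc'⟩ : ∃ c' : w, algebraMap w K c' = c := ⟨⟨c, hc⟩, rfl⟩
  refine ⟨taylor c' f₀, map_tay' hf hc', ?_⟩
  have h2 : (taylor c' f₀).map (IsLocalRing.residue w) =
      taylorEquiv (IsLocalRing.residue w c') (f₀.map (IsLocalRing.residue w)) :=
    map_taylor _ _ _
  rw [h2]
  exact (MulEquiv.irreducible_iff (taylorEquiv (IsLocalRing.residue w c'))).2 hirr

theorem linV_tay {g : ℕ} {f : K[X]} (h : LinV g w f) {c : K} (hc : c ∈ w) :
    LinV g w (taylor c f) := by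
  obtain ⟨f₀, hf, c₀, γ, hdeg, hirr, heq⟩ := h
  obtain ⟨c', hc'⟩ : ∃ c' : w, algebraMap w K c' = c := ⟨⟨c, hc⟩, rfl⟩
  refine ⟨taylor c' f₀, map_tay' hf hc', c₀ - IsLocalRing.residue w c',
    taylor (IsLocalRing.residue w c') γ, ?_, ?_, ?_⟩
  · rw [natDegree_taylor, hdeg]
  · exact (MulEquiv.irreducible_iff (taylorEquiv (IsLocalRing.residue w c'))).2 hirr
  · rw [map_taylor, heq, taylor_mul, map_sub, taylor_X, taylor_C, C_sub]
    ring

/-- The second coefficient after scaling. -/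
theorem sr_coeff {g : ℕ} {f : K[X]} (hn : f.natDegree = 2 * g + 1) (a : K) :
    (f.scaleRoots a).coeff (2 * g) = a * f.coeff (2 * g) := by
  rw [coeff_scaleRoots, hn, Nat.add_sub_cancel_left, pow_one, mul_comm]

/-- The normalizing translation. -/
noncomputable def nor (g : ℕ) (u : K) (f : K[X]) : K[X] := taylor (-(u * f.coeff (2 * g))) f

/-- Scaling and the normalizing translation. -/
theorem nor_sr {g : ℕ} {f : K[X]} (hm : f.Monic) (hn : f.natDegree = 2 * g + 1) (a u : K) :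
    (nor g u f).scaleRoots a = nor g u (f.scaleRoots a) := by
  have h1 : a * -(u * f.coeff (2 * g)) = -(u * (a * f.coeff (2 * g))) := by ring
  rw [nor, nor, Pool.T1P.sr_tay f a _ hm, sr_coeff hn, h1]

theorem nor_regV {g : ℕ} {u : K} (hu : u ∈ w) {f : K[X]} (h : RegV w f) : RegV w (nor g u f) := by
  refine regV_tay h (neg_mem (mul_mem hu ?_))
  obtain ⟨f₀, hf, -⟩ := h
  exact coeff_mem ⟨f₀, hf⟩ _

theorem nor_irrV {g : ℕ} {u : K} (hu : u ∈ w) {f : K[X]} (h : IrrV w f) : IrrV w (nor g u f) := by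
  refine irrV_tay h (neg_mem (mul_mem hu ?_))
  obtain ⟨f₀, hf, -⟩ := h
  exact coeff_mem ⟨f₀, hf⟩ _

theorem nor_linV {g k : ℕ} {u : K} (hu : u ∈ w) {f : K[X]} (h : LinV k w f) :
    LinV k w (nor g u f) := by
  refine linV_tay h (neg_mem (mul_mem hu ?_))
  obtain ⟨f₀, hf, -⟩ := h
  exact coeff_mem ⟨f₀, hf⟩ _

end

section Abs

variable {R : Type} [CommRing R] [IsDedekindDomain R] {K : Type} [Field K] [Algebra R K]
  [IsFractionRing R K]

/-- The local structure in the abstract setting. -/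
def StrP (g : ℕ) (O : ValuationSubring K) (S T T' : Finset (HeightOneSpectrum R)) (f : K[X]) :
    Prop :=
  (∀ P : HeightOneSpectrum R, P ∉ T → P ∉ T' → RegV (vP K P) f) ∧
  (∀ P ∈ S, IrrV (vP K P) f) ∧
  (∀ P ∈ T', ∃ a : K, a ≠ 0 ∧ IrrV (vP K P) (f.scaleRoots a)) ∧
  (∃ a : K, a ≠ 0 ∧ IrrV O (f.scaleRoots a)) ∧
  ∀ P ∈ T, ∃ a : K, a ≠ 0 ∧ a ∈ vP K P ∧
    (∀ x : K, x ∈ vP K P → x⁻¹ ∉ vP K P → x / a ∈ vP K P) ∧ LinV g (vP K P) (f.scaleRoots a⁻¹)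

theorem nor_strP {g : ℕ} {O : ValuationSubring K} {S T T' : Finset (HeightOneSpectrum R)}
    {f : K[X]} (hm : f.Monic) (hn : f.natDegree = 2 * g + 1) {u : K}
    (hu : ∀ w : ValuationSubring K, u ∈ w) (h : StrP g O S T T' f) :
    StrP g O S T T' (nor g u f) := by
  obtain ⟨h1, h2, h3, ⟨a, ha, h4⟩, h5⟩ := h
  refine ⟨fun P hP hP' => nor_regV (hu _) (h1 P hP hP'), fun P hP => nor_irrV (hu _) (h2 P hP),
    fun P hP => ?_, ⟨a, ha, ?_⟩, fun P hP => ?_⟩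
  · obtain ⟨b, hb, h6⟩ := h3 P hP
    refine ⟨b, hb, ?_⟩
    rw [nor_sr hm hn]
    exact nor_irrV (hu _) h6
  · rw [nor_sr hm hn]
    exact nor_irrV (hu _) h4
  · obtain ⟨b, hb, hb1, hb2, h6⟩ := h5 P hP
    refine ⟨b, hb, hb1, hb2, ?_⟩
    rw [nor_sr hm hn]
    exact nor_linV (hu _) h6

end Abs

end Pool.STR
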