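import Pool.Agent.H96.STR.VPX
import Pool.Agent.H96.STR.TRS

/-!
# STR, module PSS: the positive proportion theorem with the local structure, abstract setting
-/

set_option autoImplicit false

namespace Pool.STR

open Polynomial Matrix Pool.HYP Pool.TOW Pool.AVS IsDedekindDomain Pool.T1

section

variable {R : Type} [CommRing R] [IsDedekindDomain R] {K : Type} [Field K] [Algebra R K]
  [IsFractionRing R K] {O : ValuationSubring K} {π : K}

/-- The conclusion: a positive proportion of the polynomials satisfies `Y`. -/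
def PosS (O : ValuationSubring K) (π : K) (g : ℕ) (S T T' : Finset (HeightOneSpectrum R))
    (Y : R[X] → Prop) : Prop :=
  ∃ δ : ℝ, 0 < δ ∧ ∃ h0 : ℕ, ∀ h : ℕ, h0 ≤ h →
    (All R O π g h).Finite ∧ 0 < (AllS R O π g h).ncard ∧
    δ * (AllS R O π g h).ncard ≤
      {f ∈ AllS R O π g h | Irreducible (fk K f) ∧ StrP g O S T T' (fk K f) ∧ Y f}.ncard

/-- The local structure of the twists of the smooth elements of the family. -/
theorem strP_of (hV : ZVALStmt) (hIRV : ZIRVStmt) (hIRS : ZIRSStmt) {g h : ℕ}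
    (hg : 1 ≤ g) (hπ : π ≠ 0) {D : Dat R O} (hD : D.Ok g) {f : R[X]} (hf : f ∈ Fam π g D h)
    (hsm : Smooth f)
    {B S S0 : Finset (HeightOneSpectrum R)} {d : R} (hd : Twi D.T B S d)
    (hBT : B ⊆ D.T') (hS0 : S0 ⊆ D.T') (hS0B : Disjoint B S0) :
    StrP g O S0 D.T D.T' (fk K (f.scaleRoots d)) := by
  have hfm : f.Monic := hf.1.1
  obtain ⟨hd0, hdS, hdT, hdO⟩ := hd
  obtain ⟨hDT, hDγ, hDρ, -, htd, hti⟩ := id hD
  have hdK : algebraMap R K d ≠ 0 := fun h0 =>
    hd0 (IsFractionRing.injective R K (by rw [h0, map_zero]))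
  have hsr : fk K (f.scaleRoots d) = (fk K f).scaleRoots (algebraMap R K d) := by
    rw [fk, map_scaleRoots f d _ (by rw [hfm.leadingCoeff, map_one]; exact one_ne_zero)]
  have hinv : (fk K (f.scaleRoots d)).scaleRoots (algebraMap R K d)⁻¹ = fk K f := by
    rw [hsr, ← scaleRoots_mul, mul_inv_cancel₀ hdK, scaleRoots_one]
  have hirr : ∀ P ∈ D.T', Irreducible (md P.asIdeal f) := by
    intro P hP
    have h5 : md P.asIdeal f = md P.asIdeal (D.ρ P) := by
      have h6 := hf.2.2.2 P hP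
      have h7 : md P.asIdeal (f - D.ρ P) = 0 := by
        ext i
        rw [coeff_map, coeff_zero]
        exact Ideal.Quotient.eq_zero_iff_mem.2 (h6 i)
      have h8 : md P.asIdeal (f - D.ρ P) = md P.asIdeal f - md P.asIdeal (D.ρ P) :=
        Polynomial.map_sub _
      exact sub_eq_zero.1 (h8.symm.trans h7)
    rw [h5]
    exact (hDρ P hP).2.2
  refine ⟨fun P hP hP' => ?_, fun P hP => ?_, fun P hP => ?_, ?_, fun P hP => ?_⟩
  · refine regV_of hV P _ fun hsing => ?_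
    exact hsm P (Pool.T1P.scs hIRS P f d hfm (hdO P hP fun h => hP' (hBT h)) hsing)
  · rw [hIRV R K P _ ((monic_scaleRoots_iff d).2 hfm)]
    refine (hIRS R P d f hfm (by rw [hf.1.2.1]; omega)).2 ?_ (hirr P (hS0 hP))
    exact hdO P (fun h => (Finset.disjoint_left.1 hDT) h (hS0 hP))
      fun h => (Finset.disjoint_left.1 hS0B) h hP
  · refine ⟨(algebraMap R K d)⁻¹, inv_ne_zero hdK, ?_⟩
    rw [hinv, hIRV R K P _ hfm]
    exact hirr P hP
  · refine ⟨(algebraMap R K d)⁻¹ * π ^ h, mul_ne_zero (inv_ne_zero hdK) (pow_ne_zero _ hπ), ?_⟩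
    rw [scaleRoots_mul, hinv]
    exact Pool.T1P.top_irT hf.1 htd hti hf.2.1
  · refine ⟨algebraMap R K d, hdK, ?_, fun x hx hx' => ?_, ?_⟩
    · obtain ⟨-, hV2, -⟩ := hV R K
      exact (hV2 P).2.1 d
    · refine gen_of hV P ?_ hd0 x hx hx'
      by_cases hPS : P ∈ S
      · exact (hdS P hPS).2
      · exact fun h => hdT P hP hPS (Ideal.pow_le_self (by norm_num) h)
    · rw [hinv]
      exact linV_of hV P f (D.γ P) (D.c P) g (hDγ P hP) (hf.2.2.1 P hP)

end

/-- **PSS.** -/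
theorem pss_core {R : Type} [CommRing R] [IsDedekindDomain R] {K : Type} [Field K] [Algebra R K]
    [IsFractionRing R K] {O : ValuationSubring K} {π : K} (H : GR R O π)
    (hV : ZVALStmt) (hIRV : ZIRVStmt)
    (hCLS : ZCLSStmt) (hDS : DSKStmt) (hEA : EXDAStmt) (hEB : ZEXDStmt) (hALL : ALLKStmt)
    (hFAM : FAMKStmt) (hIRR : IRRKStmt) (hTWF : TWFKStmt) (hTWJ : TWJKStmt) (hGRO : GROWStmt)
    (hBAD : BADKStmt) (hFL : FAMLKStmt) (hRAM : ZRAMStmt) (hSPL : ZSPLStmt) (hIRS : ZIRSStmt)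
    (hU : CntU R O π) (hL : ∃ c : ℕ, CntL R O π c) (hX : ∃ C : ℕ, CntX R O π C)
    (hC : ∃ C : ℕ, CntC R O π C)
    (hfinP : ∀ b : ℕ, {P : HeightOneSpectrum R | Nm P ≤ b}.Finite)
    (g : ℕ) (hg : 1 ≤ g) (hKey : ∃ C : ℤ, KeyC R O π g C)
    (Ram A : Finset (HeightOneSpectrum R)) (hden : DenP O π g A)
    (E₀ : Type) [Field E₀] [Algebra K E₀] (hf0 : FiniteDimensional K E₀) (hg0 : IsGalois K E₀)
    (S0 : Finset (HeightOneSpectrum R))
    (Y : Finset (HeightOneSpectrum R) → R[X] → Prop) (W : R[X] → Prop)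
    (hYW : ∀ (T : Finset (HeightOneSpectrum R)) (f : R[X]), f.Monic →
      f.natDegree = 2 * g + 1 → (∀ P ∈ T, SplV E₀ (vP K P)) →
      (∀ P : HeightOneSpectrum R, UnrV E₀ (vP K P) ∨ Irreducible (md P.asIdeal f)) →
      Y T f → W f)
    (hone : ∀ (D : Dat R O) (h : ℕ), D.Ok g → Ram ⊆ D.T' → ∀ f ∈ Fam π g D h, Smooth f →
      ¬ Bad K D.T f → ∃ S ⊆ D.T, ∀ d : R, Twi D.T D.T' S d → Y D.T (f.scaleRoots d)) :
    ∃ T T' : Finset (HeightOneSpectrum R), T.Nonempty ∧ Disjoint T T' ∧ S0 ⊆ T' ∧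
      (∀ P ∈ T, SplV E₀ (vP K P)) ∧ PosS O π g S0 T T' fun f => W f ∧ Y T f := by
  classical
  have : FaithfulSMul R K := inferInstance
  obtain ⟨Z₀, hZ₀⟩ := hRAM R K O π H E₀ hf0 hg0
  obtain ⟨Z, hZd⟩ : ∃ Z, Z = Z₀ ∪ S0 := ⟨_, rfl⟩
  have hZ : ∀ P : HeightOneSpectrum R, P ∉ Z → UnrV E₀ (vP K P) := fun P hP =>
    hZ₀ P fun h => hP (by rw [hZd]; exact Finset.mem_union_left _ h)
  have hS0Z : S0 ⊆ Z := by
    rw [hZd]
    exact Finset.subset_union_right
  obtain ⟨B, hBZ, hB⟩ := hCLS R K O π H Z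
  set T' : Finset (HeightOneSpectrum R) := A ∪ (Ram ∪ (B ∪ Z)) with hT'
  obtain ⟨D₀, hD₀, hT0, hT'0⟩ := hEA R K O π H g T' hg
  obtain ⟨cL, hcL⟩ := hL
  have hFamL : ∃ c : ℕ, FamL R O π g c := ⟨_, hFL R K O π H hU hX cL g hcL hg⟩
  obtain ⟨k₀, b, hbad⟩ := hBAD R K O π H hU ⟨cL, hcL⟩ hC g hg hKey hFamL
    (fun D h hD f hf => (hIRR R K O π H g D h hg hD f hf).1) T'
  obtain ⟨D, hD, hcard, hb, hDT', -, -⟩ := hEB R K O π H {P | SplV E₀ (vP K P)}
    (fun A => by
      obtain ⟨P, h1, h2⟩ := hSPL R K O π H E₀ hf0 hg0 A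
      exact ⟨P, h2, h1⟩) hfinP g D₀ (k₀ + 1)
    (b + 2 * (2 * g + 1) * (k₀ + 1)) hg hD₀ hT0
  have hDT : D.T' = T' := hDT'.trans hT'0
  obtain ⟨h₁, h1⟩ := hbad D hD hDT (by omega) (fun P hP => by
    have := (hb P hP).1
    rw [hcard]
    constructor <;> omega)
  obtain ⟨h₂, h2⟩ := hden D hD (by rw [hDT, hT']; exact Finset.subset_union_left)
  have hBT : B ⊆ D.T' := by
    rw [hDT, hT']
    exact fun x hx => Finset.mem_union_right _ (Finset.mem_union_right _
      (Finset.mem_union_left _ hx))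
  have hZT : Z ⊆ D.T' := by
    rw [hDT, hT']
    exact fun x hx => Finset.mem_union_right _ (Finset.mem_union_right _
      (Finset.mem_union_right _ hx))
  have hRT : Ram ⊆ D.T' := by
    rw [hDT, hT']
    exact fun x hx => Finset.mem_union_right _ (Finset.mem_union_left _ hx)
  have hTB : Disjoint D.T B := hD.1.mono_right hBT
  obtain ⟨E, hE⟩ := hDS R K O π H B B D.T (Finset.Subset.refl _) hTB hB
  choose! dS hdS using hE
  have hdT : ∀ S ⊆ D.T, Twi D.T D.T' S (dS S) := fun S hS => by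
    obtain ⟨h3, h4, h5, h6⟩ := (hdS S hS).2
    exact ⟨h3, h4, h5, fun P hP hP' => h6 P hP fun h => hP' (hBT h)⟩
  obtain ⟨h₃, h3⟩ := hFAM R K O π H (fun m => (hU m).1) hX g D hg hD
  obtain ⟨c, hc⟩ := hGRO R K O π H hU ⟨cL, hcL⟩ g E
  set W' : ℕ := (∏ P ∈ D.T, Nm P ^ (2 * g + 1)) * (∏ P ∈ D.T', Nm P ^ (2 * g + 1)) *
    qq O ^ (2 * g + 1) with hW
  refine ⟨D.T, D.T', ?_, hD.1, hS0Z.trans hZT, fun P hP => (hb P hP).2,
    ((c * (W' * (2 * D.T.powerset.card)) + 1 : ℕ) : ℝ)⁻¹,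
    by positivity, max h₁ (max h₂ h₃) + E, fun h hh => ?_⟩
  · rw [← Finset.card_pos, hcard]
    exact Nat.succ_pos _
  obtain ⟨h', rfl⟩ : ∃ h', h = h' + E := ⟨h - E, by omega⟩
  have hh1 : h₁ ≤ h' := by omega
  have hh2 : h₂ ≤ h' := by omega
  have hh3 : h₃ ≤ h' := by omega
  have hfinA : ∀ n, (All R O π g n).Finite := fun n =>
    (hALL R K O π H (fun m => (hU m).1) g n).1
  have hfinS : (AllS R O π g (h' + E)).Finite := (hfinA _).subset fun f hf => hf.1
  set Bs : Set R[X] := {f ∈ AllS R O π g (h' + E) | Irreducible (fk K f) ∧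
    StrP g O S0 D.T D.T' (fk K f) ∧ W f ∧ Y D.T f} with hBs
  have hBfin : Bs.Finite := hfinS.subset fun f hf => hf.1
  have hAfin : (Fam π g D h').Finite := (hfinA h').subset fun f hf => hf.1
  have hkey : (Fam π g D h').ncard ≤ 2 * D.T.powerset.card * Bs.ncard := by
    refine pigeon (Fam π g D h') hAfin Bs hBfin D.T.powerset
      (fun S f => f.scaleRoots (dS S)) ?_ {f | Bad K D.T f} {f | ¬ Smooth f}
      (h1 h' hh1) (h2 h' hh2) ?_
    · intro S hS
      exact hTWJ R (dS S) (hdS S (Finset.mem_powerset.1 hS)).2.1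
    · intro f hf hnb hns
      have hsm : Smooth f := by
        by_contra hcon
        exact hns hcon
      obtain ⟨S, hS, htow⟩ := hone D h' hD hRT f hf hsm hnb
      obtain ⟨hd1, hd2⟩ := hdS S hS
      have hirr := hIRR R K O π H g D h' hg hD f hf
      have htw : Y D.T (f.scaleRoots (dS S)) := htow _ (hdT S hS)
      have hdm : f.scaleRoots (dS S) |>.Monic := (monic_scaleRoots_iff _).2 hf.1.1
      refine ⟨S, Finset.mem_powerset.2 hS, ?_, ?_, ?_, ?_, htw⟩
      · exact hTWF R K O π H g h' E f (dS S) ⟨hf.1, hirr.2⟩ hd2.1 hd1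
      · exact irr_scale hd2.1 hf.1.1 hirr.1
      · exact strP_of hV hIRV hIRS hg H.pi_ne hD hf hsm hd2 hBT (hS0Z.trans hZT)
          (hBZ.mono_right hS0Z)
      · refine hYW D.T _ hdm (by rw [natDegree_scaleRoots]; exact hf.1.2.1)
          (fun P hP => (hb P hP).2) (fun P => ?_) htw
        by_cases hPZ : P ∈ Z
        · right
          have hPT' : P ∈ D.T' := hZT hPZ
          have hPT : P ∉ D.T := fun h => (Finset.disjoint_left.1 hD.1) h hPT'
          have hPB : P ∉ B := fun h => (Finset.disjoint_left.1 hBZ) h hPZ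
          have hρ := hD.2.2.1 P hPT'
          have hirrP : Irreducible (md P.asIdeal f) := by
            have h5 : md P.asIdeal f = md P.asIdeal (D.ρ P) := by
              have h6 := hf.2.2.2 P hPT'
              have h7 : md P.asIdeal (f - D.ρ P) = 0 := by
                ext i
                rw [coeff_map, coeff_zero]
                exact Ideal.Quotient.eq_zero_iff_mem.2 (h6 i)
              have h8 : md P.asIdeal (f - D.ρ P) = md P.asIdeal f - md P.asIdeal (D.ρ P) :=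
                Polynomial.map_sub _
              exact sub_eq_zero.1 (h8.symm.trans h7)
            rw [h5]
            exact hρ.2.2
          exact (hIRS R P (dS S) f hf.1.1 (by rw [hf.1.2.1]; omega)).2 (hd2.2.2.2 P hPT hPB)
            hirrP
        · exact Or.inl (hZ P hPZ)
  have hFW := h3 h' hh3
  have hFW' : (Fam π g D h').ncard * W' = (All R O π g h').ncard := by
    rw [← hFW, hW]
    ring
  have hAp := all_pos H g h' (hfinA h')
  have hBpos : 0 < Bs.ncard := by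
    rcases Nat.eq_zero_or_pos Bs.ncard with h0 | h0
    · rw [h0, mul_zero] at hkey
      rw [Nat.le_zero.1 hkey, zero_mul] at hFW'
      omega
    · exact h0
  have hBS : Bs.ncard ≤ (AllS R O π g (h' + E)).ncard :=
    Set.ncard_le_ncard (fun f hf => hf.1) hfinS
  refine ⟨hfinA _, by omega, ?_⟩
  have hS1 : (AllS R O π g (h' + E)).ncard ≤ c * (W' * (2 * D.T.powerset.card)) * Bs.ncard := by
    calc (AllS R O π g (h' + E)).ncard ≤ (All R O π g (h' + E)).ncard :=
          Set.ncard_le_ncard (fun f hf => hf.1) (hfinA _)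
      _ ≤ c * (All R O π g h').ncard := hc h'
      _ = c * ((Fam π g D h').ncard * W') := by rw [hFW']
      _ ≤ c * ((2 * D.T.powerset.card * Bs.ncard) * W') :=
          Nat.mul_le_mul_left _ (Nat.mul_le_mul_right _ hkey)
      _ = _ := by ring
  have hS2 : ((AllS R O π g (h' + E)).ncard : ℝ) ≤
      ((c * (W' * (2 * D.T.powerset.card)) + 1 : ℕ) : ℝ) * (Bs.ncard : ℝ) := by
    have : (AllS R O π g (h' + E)).ncard ≤
        (c * (W' * (2 * D.T.powerset.card)) + 1) * Bs.ncard := by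
      refine hS1.trans (Nat.mul_le_mul_right _ (Nat.le_succ _))
    exact_mod_cast this
  have hpos : (0 : ℝ) < ((c * (W' * (2 * D.T.powerset.card)) + 1 : ℕ) : ℝ) := by positivity
  rw [inv_mul_le_iff₀ hpos]
  exact hS2

end Pool.STR
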